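import Pool.Agent.J2C.Base

/-!
# [J2C-A1] sums over the primes, the tails

PROOF. `sum3`: copy of `JGC.sum_primesG` (Pool/Agent/JGC/A4.lean) with the summand `1 / N ^ 3`: box `30` (`mx p ≤ 30`), `10 ^ 8 / n ^ 3 + 1` if `okp n` (sum over the box `0.04375594`); outside of the box `1 / N ^ 3 ≤ 1 / (100 N ^ 2)` (`N ≥ 3/4 (31)²`), `JC.sum_shell 30`.
`T3_card`: six associates of each prime; model `JGC.V6_card` (Pool/Agent/JGC/A3.lean). `T2_card`: copy of `JGC.W2_card` (A5.lean). `Cb_card`: `y ^ 3 = x`, `N(y) ^ 3 ≤ X`, so `N(y) ^ 2 ≤ X` (`N(y)` is a natural number), as in `JGC.SqG_card`. `CS_card`: `JGC.count_class`.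
-/

set_option autoImplicit false

namespace J2C

open CM27 CU JZ JC
open scoped Classical

/-- the summand -/
def j2cA1_g (i j : ℕ) : ℕ :=
  let n := (i * i + j * j + 900) - (i * j + 30 * (i + j))
  if okp n then 10 ^ 8 / n ^ 3 + 1 else 0

theorem j2cA1_g_sum : sN (fun i => sN (fun j => j2cA1_g i j) 61) 61 = 4375594 := by decide +kernel

theorem sum3 (S : Finset Eis) (hS : ∀ p ∈ S, Prime p ∧ IsCoprime p 6) : ∑ p ∈ S, 1 / (p.norm : ℝ) ^ 3 ≤ 45 / 1000 := by
  rw [← Finset.sum_filter_add_sum_filter_not S (fun x => 30 < mx x)]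
  have h1 := sum_shell 30 (by norm_num) (S.filter fun x => 30 < mx x)
    (fun x hx => (Finset.mem_filter.1 hx).2)
  have h1' : ∑ p ∈ S.filter (fun x => 30 < mx x), 1 / (p.norm : ℝ) ^ 3 ≤
      1 / 100 * ∑ p ∈ S.filter (fun x => 30 < mx x), (1 : ℝ) / (p.norm : ℝ) ^ 2 := by
    rw [Finset.mul_sum]
    refine Finset.sum_le_sum fun p hp => ?_
    have hp2 := (Finset.mem_filter.1 hp).2
    have h3 := mx_norm p
    have h4 : (31 : ℝ) ≤ (mx p : ℝ) := by exact_mod_cast hp2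
    have h5 : (100 : ℝ) ≤ (p.norm : ℝ) := by nlinarith
    have h6 : (0 : ℝ) < (p.norm : ℝ) := by linarith
    have e : (1 : ℝ) / 100 * (1 / (p.norm : ℝ) ^ 2) = 1 / (100 * (p.norm : ℝ) ^ 2) := by ring
    rw [e]
    apply one_div_le_one_div_of_le (by positivity)
    nlinarith [pow_pos h6 2]
  have h2 : ∑ p ∈ S.filter (fun x => ¬ 30 < mx x), 1 / (p.norm : ℝ) ^ 3 ≤
      4375594 / 10 ^ 8 := by
    set T := S.filter (fun x => ¬ 30 < mx x) with hT
    set φ : Eis → ℕ × ℕ := fun x => ((x.re + 30).toNat, (x.im + 30).toNat) with hφ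
    have hbox : ∀ x ∈ T, -30 ≤ x.re ∧ x.re ≤ 30 ∧ -30 ≤ x.im ∧ x.im ≤ 30 := by
      intro x hx
      have h3 := (Finset.mem_filter.1 hx).2
      rw [not_lt, mx, max_le_iff] at h3
      omega
    have hinj : Set.InjOn φ T := by
      intro x hx y hy h
      have hx' := hbox x hx
      have hy' := hbox y hy
      simp only [hφ, Prod.mk.injEq] at h
      exact QuadraticAlgebra.ext (by omega) (by omega)
    have hterm : ∀ x ∈ T, 1 / (x.norm : ℝ) ^ 3 ≤
        (j2cA1_g (φ x).1 (φ x).2 : ℝ) / 10 ^ 8 := by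
      intro x hx
      obtain ⟨b1, b2, b3, b4⟩ := hbox x hx
      obtain ⟨hp, h6⟩ := hS x (Finset.mem_filter.1 hx).1
      set i := (x.re + 30).toNat with hi
      set j := (x.im + 30).toNat with hj
      have hi' : (i : ℤ) = x.re + 30 := Int.toNat_of_nonneg (by omega)
      have hj' : (j : ℤ) = x.im + 30 := Int.toNat_of_nonneg (by omega)
      set n : ℕ := (i * i + j * j + 900) - (i * j + 30 * (i + j)) with hn
      have hnn := norm_nonneg' x
      have hnorm : x.norm = n := by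
        have h3 : x.norm = ((i * i + j * j + 900 : ℕ) : ℤ) - ((i * j + 30 * (i + j) : ℕ) : ℤ) := by
          rw [norm_eq]
          have e1 : x.re = i - 30 := by omega
          have e2 : x.im = j - 30 := by omega
          rw [e1, e2]
          push_cast
          ring
        omega
      have hok := okp_of_prime hp h6 hnorm
      have hg : j2cA1_g (φ x).1 (φ x).2 = 10 ^ 8 / n ^ 3 + 1 := by
        show j2cA1_g i j = _
        unfold j2cA1_g
        simp only [← hn, hok, if_true]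
      have hn0 : 0 < n := by
        rcases Nat.eq_zero_or_pos n with h | h
        · rw [h] at hok
          exact absurd hok (by decide)
        · exact h
      have hn0' : (0 : ℝ) < n := by exact_mod_cast hn0
      rw [hg, hnorm]
      have e : (((n : ℤ) : ℝ)) = (n : ℝ) := by push_cast; rfl
      rw [e]
      have h4 : 10 ^ 8 < (10 ^ 8 / n ^ 3 + 1) * n ^ 3 := by
        have e1 := Nat.div_add_mod (10 ^ 8) (n ^ 3)
        have e2 := Nat.mod_lt (10 ^ 8) (show 0 < n ^ 3 by positivity)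
        calc 10 ^ 8 = n ^ 3 * (10 ^ 8 / n ^ 3) + 10 ^ 8 % n ^ 3 := e1.symm
          _ < n ^ 3 * (10 ^ 8 / n ^ 3) + n ^ 3 := Nat.add_lt_add_left e2 _
          _ = (10 ^ 8 / n ^ 3 + 1) * n ^ 3 := by ring
      have h5 : (10 : ℝ) ^ 8 ≤ ((10 ^ 8 / n ^ 3 + 1 : ℕ) : ℝ) * (n : ℝ) ^ 3 := by
        exact_mod_cast h4.le
      rw [div_le_div_iff₀ (by positivity) (by positivity)]
      linarith
    have hsub : T.image φ ⊆ Finset.range 61 ×ˢ Finset.range 61 := by
      have e : ∀ x ∈ T, (φ x).1 < 61 ∧ (φ x).2 < 61 := by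
        intro x hx
        have hb := hbox x hx
        simp only [hφ]
        constructor <;> omega
      exact img_sub T φ 61 e
    calc ∑ x ∈ T, 1 / (x.norm : ℝ) ^ 3 ≤
          ∑ x ∈ T, (j2cA1_g (φ x).1 (φ x).2 : ℝ) / 10 ^ 8 :=
          Finset.sum_le_sum hterm
      _ = (∑ x ∈ T, (j2cA1_g (φ x).1 (φ x).2 : ℝ)) / 10 ^ 8 := by rw [Finset.sum_div]
      _ = (∑ q ∈ T.image φ, (j2cA1_g q.1 q.2 : ℝ)) / 10 ^ 8 := by
        rw [Finset.sum_image hinj]
      _ ≤ (∑ q ∈ Finset.range 61 ×ˢ Finset.range 61, (j2cA1_g q.1 q.2 : ℝ)) / 10 ^ 8 := by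
        exact div_le_div_of_nonneg_right (Finset.sum_le_sum_of_subset_of_nonneg hsub
          (fun _ _ _ => Nat.cast_nonneg _)) (by norm_num)
      _ = ((sN (fun i => sN (fun j => j2cA1_g i j) 61) 61 : ℕ) : ℝ) / 10 ^ 8 := by
        rw [Finset.sum_product, sN_eq]
        simp only [sN_eq]
        push_cast
        rfl
      _ = 4375594 / 10 ^ 8 := by
        rw [j2cA1_g_sum]
        norm_num
  have h3 : 1 / 100 * ((64 : ℝ) / 9 / ((30 : ℕ) * ((30 : ℕ) + 1))) + 4375594 / 10 ^ 8 ≤ 45 / 1000 := by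
    norm_num
  linarith

theorem CS_card (M a : Eis) (hM : M ≠ 0) (X : ℕ) :
    |((CS M a X).card : ℝ) - 2 * Real.pi / √3 * X / M.norm| ≤ 10 * (√X + 1) := by
  have h := JGC.count_class M a hM X
  have h4 : ((CS M a X).card : ℝ) = ({x : Eis | M ∣ x - a ∧ x.norm ≤ X}.ncard : ℝ) := by
    rw [← Set.ncard_coe_finset]
    congr 2
    ext x
    unfold CS
    rw [Finset.mem_coe, Finset.mem_filter, Set.Finite.mem_toFinset]
    show x.norm ≤ X ∧ _ ↔ M ∣ x - a ∧ x.norm ≤ X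
    tauto
  rw [h4]
  exact h

theorem T3_card (K X : ℕ) : 6 * (T3 K X).card ≤ ∑ p ∈ PB K, (CS (p ^ 3) 0 X).card := by
  have hdom := eis_isDomain
  have hex : ∀ x : Eis, ∃ p : Eis, x ∈ T3 K X → p ∈ PB K ∧ p ^ 3 ∣ x := fun x => by
    by_cases hx : x ∈ T3 K X
    · obtain ⟨p, h1, h2⟩ := (Finset.mem_filter.1 hx).2
      exact ⟨p, fun _ => ⟨h1, h2⟩⟩
    · exact ⟨0, fun h => absurd h hx⟩
  choose q hq using hex
  have h1 : (U6 ×ˢ T3 K X).card ≤ ((PB K).sigma fun p => CS (p ^ 3) 0 X).card := by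
    refine Finset.card_le_card_of_injOn (fun y => ⟨y.1 * q y.2, y.2⟩) ?_ ?_
    · rintro ⟨u, x⟩ hy
      obtain ⟨hu, hx⟩ := Finset.mem_product.1 (Finset.mem_coe.1 hy)
      obtain ⟨h2, h3⟩ := hq x hx
      obtain ⟨h4, h5, h6⟩ := (mem_PB K _).1 h2
      have hun : IsUnit u := by
        rw [eis_isUnit_iff]
        exact U6_unit u hu
      refine Finset.mem_coe.2 (Finset.mem_sigma.2 ⟨(mem_PB K _).2 ⟨?_, ?_, ?_⟩, ?_⟩)
      · show (u * q x).norm ≤ K
        rw [map_mul, U6_unit u hu, one_mul]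
        exact h4
      · exact (associated_unit_mul_left _ _ hun).symm.prime h5
      · exact (isCoprime_mul_unit_left_left hun _ _).2 h6
      · refine Finset.mem_filter.2 ⟨(Finset.mem_filter.1 hx).1, ?_⟩
        show (u * q x) ^ 3 ∣ x - 0
        rw [mul_pow, sub_zero]
        exact ((hun.pow 3).mul_left_dvd).2 h3
    · rintro ⟨u, x⟩ hy ⟨u', x'⟩ hy' h
      obtain ⟨hu, hx⟩ := Finset.mem_product.1 (Finset.mem_coe.1 hy)
      simp only [Sigma.mk.injEq, heq_eq_eq] at h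
      obtain ⟨h2, rfl⟩ := h
      have h3 : q x ≠ 0 := ((mem_PB K _).1 (hq x hx).1).2.1.ne_zero
      rw [mul_right_cancel₀ h3 h2]
  rw [Finset.card_product, U6_card, Finset.card_sigma] at h1
  exact h1

theorem T2_card : ∃ C : ℝ, 0 < C ∧ ∀ k X : ℕ, 1 ≤ k → ((T2 (3 * k ^ 2) X).card : ℝ) ≤ C * X / k ^ 2 := by
  have hdom := eis_isDomain
  obtain ⟨C, hC, hmul⟩ := count_mul
  refine ⟨C * 64, by positivity, fun k X hk => ?_⟩
  set Q : Finset Eis := (PB X).filter fun p => ((3 * k ^ 2 : ℕ) : ℤ) < p.norm with hQ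
  have hsub : T2 (3 * k ^ 2) X ⊆ Q.biUnion fun p => (JC.norm_fin X).toFinset.filter
      fun x => x ≠ 0 ∧ p ^ 2 ∣ x := by
    intro x hx
    obtain ⟨h1, h0, p, hp, h6, hK, hd⟩ := Finset.mem_filter.1 hx
    have hX : x.norm ≤ X := by
      have := h1
      rw [Set.Finite.mem_toFinset] at this
      exact this
    refine Finset.mem_biUnion.2 ⟨p, Finset.mem_filter.2 ⟨(mem_PB X p).2 ⟨?_, hp, h6⟩, hK⟩,
      Finset.mem_filter.2 ⟨h1, h0, hd⟩⟩
    obtain ⟨y, rfl⟩ := hd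
    have hy : y ≠ 0 := by
      rintro rfl
      exact h0 (mul_zero _)
    have h2 := norm_one_le hy
    have h3 := norm_one_le hp.ne_zero
    have h4 : ((p ^ 2 * y).norm : ℝ) ≤ X := by exact_mod_cast hX
    have h5 : ((p ^ 2 * y).norm : ℝ) = (p.norm : ℝ) ^ 2 * (y.norm : ℝ) := by
      rw [map_mul, map_pow]
      push_cast
      rfl
    have h7 : (p.norm : ℝ) ≤ X := by nlinarith
    exact_mod_cast h7
  have h1 := (Finset.card_le_card hsub).trans Finset.card_biUnion_le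
  have h2 : ∀ p ∈ Q, (((JC.norm_fin X).toFinset.filter fun x => x ≠ 0 ∧ p ^ 2 ∣ x).card : ℝ) ≤
      C * X * (1 / (p.norm : ℝ) ^ 2) := by
    intro p hp
    have hp' := ((mem_PB X p).1 (Finset.mem_filter.1 hp).1).2.1
    have h3 := hmul (p ^ 2) X (pow_ne_zero 2 hp'.ne_zero)
    have h4 : (((JC.norm_fin X).toFinset.filter fun x => x ≠ 0 ∧ p ^ 2 ∣ x).card : ℝ) =
        ({x : Eis | x ≠ 0 ∧ p ^ 2 ∣ x ∧ x.norm ≤ X}.ncard : ℝ) := by
      rw [← Set.ncard_coe_finset]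
      congr 2
      ext x
      rw [Finset.mem_coe, Finset.mem_filter, Set.Finite.mem_toFinset]
      show x.norm ≤ X ∧ _ ↔ x ≠ 0 ∧ p ^ 2 ∣ x ∧ x.norm ≤ X
      tauto
    rw [h4]
    refine h3.trans (le_of_eq ?_)
    rw [map_pow]
    push_cast
    ring
  have h3 := sum_shell k hk Q fun p hp => by
    have h4 := (Finset.mem_filter.1 hp).2
    have h5 : p.norm ≤ 3 * (mx p : ℤ) ^ 2 := by
      rw [norm_eq]
      have a1 : p.re ^ 2 ≤ (mx p : ℤ) ^ 2 := by
        rw [← Int.natAbs_sq p.re]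
        have : p.re.natAbs ≤ mx p := le_max_left _ _
        exact_mod_cast Nat.pow_le_pow_left this 2
      have a2 : p.im ^ 2 ≤ (mx p : ℤ) ^ 2 := by
        rw [← Int.natAbs_sq p.im]
        have : p.im.natAbs ≤ mx p := le_max_right _ _
        exact_mod_cast Nat.pow_le_pow_left this 2
      nlinarith [sq_nonneg (p.re + p.im)]
    by_contra hcon
    rw [not_lt] at hcon
    have h6 : (mx p) ^ 2 ≤ k ^ 2 := Nat.pow_le_pow_left hcon 2
    have h7 : ((mx p : ℤ)) ^ 2 ≤ (k : ℤ) ^ 2 := by exact_mod_cast h6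
    push_cast at h4
    linarith
  have hk0 : (1 : ℝ) ≤ k := by exact_mod_cast hk
  calc ((T2 (3 * k ^ 2) X).card : ℝ) ≤
      ((∑ p ∈ Q, ((JC.norm_fin X).toFinset.filter fun x => x ≠ 0 ∧ p ^ 2 ∣ x).card : ℕ) : ℝ) := by
        exact_mod_cast h1
    _ = ∑ p ∈ Q, (((JC.norm_fin X).toFinset.filter fun x => x ≠ 0 ∧ p ^ 2 ∣ x).card : ℝ) := by
        push_cast
        rfl
    _ ≤ ∑ p ∈ Q, C * X * (1 / (p.norm : ℝ) ^ 2) := Finset.sum_le_sum h2
    _ = C * X * ∑ p ∈ Q, (1 / (p.norm : ℝ) ^ 2) := by rw [Finset.mul_sum]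
    _ ≤ C * X * (64 / 9 / (k * (k + 1))) := by gcongr
    _ ≤ C * X * (64 / k ^ 2) := by
        gcongr
        · norm_num
        · nlinarith
    _ = C * 64 * X / k ^ 2 := by ring

theorem Cb_card : ∃ C : ℝ, 0 < C ∧ ∀ X : ℕ, ((Cb X).card : ℝ) ≤ C * (√X + 1) := by
  refine ⟨30, by norm_num, fun X => ?_⟩
  set R : ℝ := √(√X) with hR
  have hR0 : 0 ≤ R := Real.sqrt_nonneg _
  have hR2 : R ^ 2 = √X := Real.sq_sqrt (Real.sqrt_nonneg _)
  obtain ⟨hf, hc⟩ := disc_count 0 R hR0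
  have hsub : Cb X ⊆ hf.toFinset.image fun y => y ^ 3 := by
    intro x hx
    obtain ⟨h1, y, rfl⟩ := Finset.mem_filter.1 hx
    rw [Set.Finite.mem_toFinset] at h1
    have h1' : (y ^ 3).norm ≤ X := h1
    have h1'' : (y ^ 2).norm ≤ X := by
      rw [map_pow] at h1' ⊢
      have hn := norm_nonneg' y
      rcases hn.eq_or_lt with h0 | h0
      · rw [← h0]
        rw [← h0] at h1'
        simp
      · nlinarith [sq_nonneg y.norm]
    have h2 : ‖emb (y ^ 2)‖ ≤ √X := (norm_le_iff _ X).1 h1''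
    refine Finset.mem_image.2 ⟨y, ?_, rfl⟩
    rw [Set.Finite.mem_toFinset]
    show ‖emb y - 0‖ ≤ R
    rw [sub_zero]
    refine Real.le_sqrt_of_sq_le ?_
    rw [← norm_pow, ← map_pow]
    exact h2
  have h3 : (Cb X).card ≤ {x : Eis | ‖emb x - 0‖ ≤ R}.ncard := by
    rw [Set.ncard_eq_toFinset_card _ hf]
    exact (Finset.card_le_card hsub).trans Finset.card_image_le
  have h4 : ((Cb X).card : ℝ) ≤ ({x : Eis | ‖emb x - 0‖ ≤ R}.ncard : ℝ) := by exact_mod_cast h3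
  have h5 := (abs_le.1 hc).2
  have h6 : 2 * Real.pi / √3 * R ^ 2 ≤ 3.6277 * R ^ 2 :=
    mul_le_mul_of_nonneg_right two_pi_bounds.2 (by positivity)
  rw [← hR2]
  nlinarith [sq_nonneg (R - 1)]

end J2C
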