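import Pool.Agent.J2C.Base

/-!
# [J2C-B1] the sieve

PROOF. `sieve_bad`: `D` sixth-power-free, norm `≤ X`, not in `Cl2`: one of the conditions fails. `ncube`: `D ∈ Cb`. `odd`: `p ^ 3 ∣ D`, `p` prime to `6` (`¬ p ∣ 6`): `N p ≤ K`: `T3`, `N p > K`: `T2` (`p ^ 2 ∣ D`, `D ≠ 0`). `lam`: `9 ∣ la ^ 4` up to a unit (`la ^ 4 = unit * 9`): `CS 9 1`, `CS 9 (-1)`. `two3`: `D = 8 c`, `2 ∣ c - 1`: `CS 16 8`. `two2`: `D = 4 c`, `c` odd, `4 ∣ c - y² - 2`: `y` is odd, `y² ≡ 1, ω, ω² mod 4` (`JGL.q5_odd_sq`): `CS 16 (4 z + 8)`, `z = 1, ω, ω²`.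
`sieve_all`: a nonzero `D` which is not sixth-power-free: `q ^ 6 ∣ D`; `q ∣ 6`: `JGC.prime_six` (Pool/Agent/JGC/A7.lean): `CS (2 ^ 6) 0` or `CS (la ^ 6) 0`; otherwise `T3` or `T2`. Model: `JGC.sieveG`.
-/

set_option autoImplicit false

namespace J2C

open CM27 CU JZ JC
open scoped Classical

theorem j2cB1_mem_CS (M a : Eis) (X : ℕ) (x : Eis) : x ∈ CS M a X ↔ x.norm ≤ X ∧ M ∣ x - a := by
  rw [CS, Finset.mem_filter, Set.Finite.mem_toFinset]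
  exact Iff.rfl

/-- an odd square modulo `4` (`JGL.q5_odd_sq`, direct proof) -/
theorem j2cB1_odd_sq {y : Eis} (h : ¬ (2 : Eis) ∣ y) :
    ∃ z : Eis, (z = 1 ∨ z = om ^ 2 ∨ z = om) ∧ (4 : Eis) ∣ y ^ 2 - z := by
  have r2 : (2 : Eis).re = 2 := rfl
  have i2 : (2 : Eis).im = 0 := rfl
  have key : ∃ u m : Eis, (u ^ 2 = 1 ∨ u ^ 2 = om ^ 2 ∨ u ^ 2 = om) ∧ y = u + 2 * m := by
    obtain ⟨a, ha⟩ : ∃ a : ℤ, y.re = 2 * a ∨ y.re = 1 + 2 * a := ⟨y.re / 2, by omega⟩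
    obtain ⟨b, hb⟩ : ∃ b : ℤ, y.im = 2 * b ∨ y.im = 1 + 2 * b := ⟨y.im / 2, by omega⟩
    rcases ha with ha | ha
    · rcases hb with hb | hb
      · exfalso
        apply h
        refine ⟨⟨a, b⟩, ?_⟩
        ext
        · rw [ha]
          simp [r2, i2]
        · rw [hb]
          simp [r2, i2]
      · refine ⟨⟨0, 1⟩, ⟨a, b⟩, by decide, ?_⟩
        ext
        · rw [ha]
          simp [r2, i2]
        · rw [hb]
          simp [r2, i2]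
    · rcases hb with hb | hb
      · refine ⟨⟨1, 0⟩, ⟨a, b⟩, by decide, ?_⟩
        ext
        · rw [ha]
          simp [r2, i2]
        · rw [hb]
          simp [r2, i2]
      · refine ⟨⟨1, 1⟩, ⟨a, b⟩, by decide, ?_⟩
        ext
        · rw [ha]
          simp [r2, i2]
        · rw [hb]
          simp [r2, i2]
  obtain ⟨u, m, hu, hy⟩ := key
  refine ⟨u ^ 2, hu, ⟨u * m + m ^ 2, ?_⟩⟩
  rw [hy]
  ring

/-- an element divisible by the cube of a prime which does not divide `6` -/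
theorem j2cB1_cube {K X : ℕ} {x p : Eis} (hX : x.norm ≤ X) (hx0 : x ≠ 0) (hp : Prime p) (h6 : ¬ p ∣ 6)
    (hd : p ^ 3 ∣ x) : x ∈ T3 K X ∨ x ∈ T2 K X := by
  have hdom := eis_isDomain
  have hpid := eis_pid
  have h6' : IsCoprime p 6 := (Prime.coprime_iff_not_dvd hp).2 h6
  have hm : x ∈ (JC.norm_fin X).toFinset := (Set.Finite.mem_toFinset _).2 hX
  by_cases hK : p.norm ≤ K
  · left
    exact Finset.mem_filter.2 ⟨hm, p, (mem_PB K p).2 ⟨hK, hp, h6'⟩, hd⟩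
  · right
    exact Finset.mem_filter.2 ⟨hm, hx0, p, hp, h6', not_le.1 hK, (pow_dvd_pow p (by norm_num)).trans hd⟩

theorem sieve_bad (K X : ℕ) : JZR.count (fun _ => True) X ≤ JZR.count (fun D => JT.Cl2 D) X +
    (CS 9 1 X).card + (CS 9 (-1) X).card + (CS 16 8 X).card + (CS 16 (4 + 8) X).card + (CS 16 (4 * om + 8) X).card +
    (CS 16 (4 * om ^ 2 + 8) X).card + (T3 K X).card + (T2 K X).card + (Cb X).card := by
  have hA := JZR.finite_le (fun _ => True) X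
  have hB := JZR.finite_le (fun D => JT.Cl2 D) X
  unfold JZR.count
  rw [Set.ncard_eq_toFinset_card _ hA, Set.ncard_eq_toFinset_card _ hB]
  have hsub : hA.toFinset ⊆ ((((((((hB.toFinset ∪ CS 9 1 X) ∪ CS 9 (-1) X) ∪ CS 16 8 X) ∪ CS 16 (4 + 8) X) ∪
      CS 16 (4 * om + 8) X) ∪ CS 16 (4 * om ^ 2 + 8) X) ∪ T3 K X) ∪ T2 K X) ∪ Cb X := by
    intro x hx
    obtain ⟨⟨hx0, hfree⟩, hX, -⟩ := (Set.Finite.mem_toFinset _).1 hx
    have hm : x ∈ (JC.norm_fin X).toFinset := (Set.Finite.mem_toFinset _).2 hX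
    simp only [Finset.mem_union]
    by_contra hcon
    simp only [not_or] at hcon
    obtain ⟨⟨⟨⟨⟨⟨⟨⟨⟨n0, n1⟩, n2⟩, n3⟩, n4⟩, n5⟩, n6⟩, n7⟩, n8⟩, n9⟩ := hcon
    apply n0
    rw [Set.Finite.mem_toFinset]
    refine ⟨⟨hx0, hfree⟩, hX, ⟨hfree, ?_, ?_, ?_, ?_, ?_⟩⟩
    · intro h
      exact n9 (Finset.mem_filter.2 ⟨hm, h⟩)
    · intro p c hp h6 _ he _ _
      rcases j2cB1_cube (K := K) hX hx0 hp h6 ⟨c, he⟩ with h | h
      · exact n7 h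
      · exact n8 h
    · intro η hη hd
      have h9 : (la : Eis) ^ 4 * om = 9 := by decide
      have h9' : (9 : Eis) ∣ x - η := by
        have h : IsUnit (om : Eis) := IsUnit.of_mul_eq_one (om ^ 2) (by decide)
        rw [← h9]
        exact h.mul_right_dvd.2 hd
      rcases hη with rfl | rfl
      · exact n1 ((j2cB1_mem_CS _ _ _ _).2 ⟨hX, h9'⟩)
      · exact n2 ((j2cB1_mem_CS _ _ _ _).2 ⟨hX, h9'⟩)
    · intro c he hd
      obtain ⟨m, hm'⟩ := hd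
      refine n3 ((j2cB1_mem_CS _ _ _ _).2 ⟨hX, ⟨m, ?_⟩⟩)
      rw [he]
      linear_combination 8 * hm'
    · intro c hc he y hd
      obtain ⟨m, hm'⟩ := hd
      have hy : ¬ (2 : Eis) ∣ y := by
        rintro ⟨k, hk⟩
        apply hc
        refine ⟨2 * m + 2 * k ^ 2 + 1, ?_⟩
        rw [hk] at hm'
        linear_combination hm'
      obtain ⟨z, hz, ⟨k, hk⟩⟩ := j2cB1_odd_sq hy
      have hD : (16 : Eis) ∣ x - (4 * z + 8) := by
        refine ⟨m + k, ?_⟩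
        rw [he]
        linear_combination 4 * hm' + 4 * hk
      rcases hz with rfl | rfl | rfl
      · refine n4 ((j2cB1_mem_CS _ _ _ _).2 ⟨hX, ?_⟩)
        rw [mul_one] at hD
        exact hD
      · exact n6 ((j2cB1_mem_CS _ _ _ _).2 ⟨hX, hD⟩)
      · exact n5 ((j2cB1_mem_CS _ _ _ _).2 ⟨hX, hD⟩)
  refine (Finset.card_le_card hsub).trans ?_
  have a1 := Finset.card_union_le (((((((((hB.toFinset ∪ CS 9 1 X) ∪ CS 9 (-1) X) ∪ CS 16 8 X) ∪ CS 16 (4 + 8) X) ∪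
      CS 16 (4 * om + 8) X) ∪ CS 16 (4 * om ^ 2 + 8) X) ∪ T3 K X) ∪ T2 K X)) (Cb X)
  have a2 := Finset.card_union_le ((((((((hB.toFinset ∪ CS 9 1 X) ∪ CS 9 (-1) X) ∪ CS 16 8 X) ∪ CS 16 (4 + 8) X) ∪
      CS 16 (4 * om + 8) X) ∪ CS 16 (4 * om ^ 2 + 8) X) ∪ T3 K X)) (T2 K X)
  have a3 := Finset.card_union_le (((((((hB.toFinset ∪ CS 9 1 X) ∪ CS 9 (-1) X) ∪ CS 16 8 X) ∪ CS 16 (4 + 8) X) ∪
      CS 16 (4 * om + 8) X) ∪ CS 16 (4 * om ^ 2 + 8) X)) (T3 K X)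
  have a4 := Finset.card_union_le ((((((hB.toFinset ∪ CS 9 1 X) ∪ CS 9 (-1) X) ∪ CS 16 8 X) ∪ CS 16 (4 + 8) X) ∪
      CS 16 (4 * om + 8) X)) (CS 16 (4 * om ^ 2 + 8) X)
  have a5 := Finset.card_union_le (((((hB.toFinset ∪ CS 9 1 X) ∪ CS 9 (-1) X) ∪ CS 16 8 X) ∪ CS 16 (4 + 8) X))
    (CS 16 (4 * om + 8) X)
  have a6 := Finset.card_union_le ((((hB.toFinset ∪ CS 9 1 X) ∪ CS 9 (-1) X) ∪ CS 16 8 X)) (CS 16 (4 + 8) X)
  have a7 := Finset.card_union_le (((hB.toFinset ∪ CS 9 1 X) ∪ CS 9 (-1) X)) (CS 16 8 X)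
  have a8 := Finset.card_union_le ((hB.toFinset ∪ CS 9 1 X)) (CS 9 (-1) X)
  have a9 := Finset.card_union_le (hB.toFinset) (CS 9 1 X)
  omega

theorem sieve_all (K X : ℕ) : (CS 1 0 X).card ≤ JZR.count (fun _ => True) X + 1 + (CS (2 ^ 6) 0 X).card + (CS (la ^ 6) 0 X).card +
    (T3 K X).card + (T2 K X).card := by
  have hA := JZR.finite_le (fun _ => True) X
  unfold JZR.count
  rw [Set.ncard_eq_toFinset_card _ hA]
  have hsub : CS 1 0 X ⊆ ((((hA.toFinset ∪ {0}) ∪ CS (2 ^ 6) 0 X) ∪ CS (la ^ 6) 0 X) ∪ T3 K X) ∪ T2 K X := by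
    intro x hx
    obtain ⟨hX, -⟩ := (j2cB1_mem_CS _ _ _ _).1 hx
    simp only [Finset.mem_union, Finset.mem_singleton]
    by_contra hcon
    simp only [not_or] at hcon
    obtain ⟨⟨⟨⟨⟨n0, hx0⟩, n2⟩, n3⟩, n7⟩, n8⟩ := hcon
    apply n0
    rw [Set.Finite.mem_toFinset]
    refine ⟨⟨hx0, fun q hq hd => ?_⟩, hX, trivial⟩
    by_cases h6 : q ∣ 6
    · rcases JGC.prime_six hq h6 with h | h
      · refine n2 ((j2cB1_mem_CS _ _ _ _).2 ⟨hX, ?_⟩)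
        rw [sub_zero]
        exact (pow_dvd_pow_of_dvd h 6).trans hd
      · refine n3 ((j2cB1_mem_CS _ _ _ _).2 ⟨hX, ?_⟩)
        rw [sub_zero]
        exact (pow_dvd_pow_of_dvd h 6).trans hd
    · rcases j2cB1_cube (K := K) hX hx0 hq h6 ((pow_dvd_pow q (by norm_num)).trans hd) with h | h
      · exact n7 h
      · exact n8 h
  refine (Finset.card_le_card hsub).trans ?_
  have a1 := Finset.card_union_le ((((hA.toFinset ∪ {0}) ∪ CS (2 ^ 6) 0 X) ∪ CS (la ^ 6) 0 X) ∪ T3 K X) (T2 K X)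
  have a2 := Finset.card_union_le (((hA.toFinset ∪ {0}) ∪ CS (2 ^ 6) 0 X) ∪ CS (la ^ 6) 0 X) (T3 K X)
  have a3 := Finset.card_union_le ((hA.toFinset ∪ {0}) ∪ CS (2 ^ 6) 0 X) (CS (la ^ 6) 0 X)
  have a4 := Finset.card_union_le (hA.toFinset ∪ {0}) (CS (2 ^ 6) 0 X)
  have a5 := Finset.card_union_le (hA.toFinset) ({0} : Finset Eis)
  rw [Finset.card_singleton] at a5
  omega

end J2C
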