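import Pool.Agent.JGC.A8
import Pool.Agent.JT.UC

/-!
# [J2C] counting the class `JT.Cl2`: definitions
-/

set_option autoImplicit false

namespace J2C

open CM27 CU JZ JC
open scoped Classical

/-- the elements of norm `≤ X` congruent to `a` modulo `M` -/
noncomputable def CS (M a : Eis) (X : ℕ) : Finset Eis := (JC.norm_fin X).toFinset.filter fun x => M ∣ x - a

/-- the elements divisible by the cube of a prime of norm `≤ K` -/
noncomputable def T3 (K X : ℕ) : Finset Eis := (JC.norm_fin X).toFinset.filter fun x => ∃ p ∈ PB K, p ^ 3 ∣ x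

/-- the nonzero elements divisible by the square of a prime of norm `> K` -/
noncomputable def T2 (K X : ℕ) : Finset Eis :=
  (JC.norm_fin X).toFinset.filter fun x => x ≠ 0 ∧ ∃ p, Prime p ∧ IsCoprime p 6 ∧ (K : ℤ) < p.norm ∧ p ^ 2 ∣ x

/-- the cubes -/
noncomputable def Cb (X : ℕ) : Finset Eis := (JC.norm_fin X).toFinset.filter fun x => ∃ y : Eis, y ^ 3 = x

end J2C
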