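import Pool.Agent.J2C.A1
import Pool.Agent.J2C.B1

/-!
# [J2C-Z] at least `95` per cent of all sixth-power-free `D` are in the class `Cl2`

PROOF. `P = 2 π / √3` (`JC.two_pi_bounds`), `k` with `C₂ / k ^ 2` small as in `JGC.count_clG'` (Pool/Agent/JGC/A7.lean), `K = 3 k ^ 2`. The number of the exceptions is at most `P X (2 / 81 + 4 / 256 + 0.045 / 6) + X / 10000 ≤ 0.04783 P X + ..` (`6 (T3).card ≤ ∑ ≤ P X ∑ N ^ (-3) + ..`, `sum3`), the number of all is at least `P X (1 - 1 / 4096 - 1 / 729 - 0.0075) - .. ≥ 0.99 P X`; `0.04783 / 0.99 < 0.0485 < 0.05`.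
`count_both`: `JGC.count_clG` and inclusion-exclusion (`Set.ncard_union_le`): `count P + count Q ≤ count (P ∧ Q) + count True`.
-/

set_option autoImplicit false

namespace J2C

open CM27 CU JZ JC
open scoped Classical

theorem count_cl2 : ∃ X₀ : ℕ, ∀ X : ℕ, X₀ ≤ X →
    95 * JZR.count (fun _ => True) X ≤ 100 * JZR.count (fun D => JT.Cl2 D) X := by
  obtain ⟨C₂, hC₂, hB2⟩ := T2_card
  obtain ⟨C₄, hC₄, hS⟩ := Cb_card
  obtain ⟨k, hk⟩ : ∃ k : ℕ, C₂ * 20000 + 1 ≤ (k : ℝ) ^ 2 := by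
    obtain ⟨k, hk⟩ := exists_nat_ge (C₂ * 20000 + 1)
    refine ⟨k, hk.trans ?_⟩
    have h1 : (1 : ℝ) ≤ k := by linarith [mul_pos hC₂ (by norm_num : (0 : ℝ) < 20000)]
    nlinarith
  have hk1 : 1 ≤ k := by
    rcases Nat.eq_zero_or_pos k with h | h
    · rw [h] at hk
      norm_num at hk
      linarith
    · exact h
  obtain ⟨K, hK⟩ : ∃ K : ℕ, K = 3 * k ^ 2 := ⟨_, rfl⟩
  obtain ⟨n, hn⟩ : ∃ n : ℝ, n = ((PB K).card : ℝ) := ⟨_, rfl⟩
  have hn0 : 0 ≤ n := by rw [hn]; exact Nat.cast_nonneg _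
  obtain ⟨C₃, hC₃⟩ : ∃ C₃ : ℝ, C₃ = 100 + 10 * n + C₄ := ⟨_, rfl⟩
  have hC₃0 : 0 ≤ C₃ := by rw [hC₃]; positivity
  refine ⟨⌈(C₃ * 40000 + 1) ^ 2⌉₊ + 1, fun X hX => ?_⟩
  have hX0 : (1 : ℝ) ≤ X := by
    have : 1 ≤ X := by omega
    exact_mod_cast this
  have hX1 : (C₃ * 40000 + 1) ^ 2 ≤ X := by
    have h1 : ⌈(C₃ * 40000 + 1) ^ 2⌉₊ ≤ X := by omega
    exact (Nat.le_ceil _).trans (by exact_mod_cast h1)
  have hsX : C₃ * 40000 + 1 ≤ √X := Real.le_sqrt_of_sq_le hX1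
  have hsq : √X * √X = X := Real.mul_self_sqrt (by linarith)
  have herr : C₃ * (√X + 1) ≤ X / 20000 := by
    have h1 : √X + 1 ≤ 2 * √X := by linarith [mul_nonneg hC₃0 (by norm_num : (0 : ℝ) ≤ 40000)]
    have h2 : C₃ * 40000 * √X ≤ X := by
      calc C₃ * 40000 * √X ≤ √X * √X := by
            apply mul_le_mul_of_nonneg_right _ (Real.sqrt_nonneg _)
            linarith
        _ = X := hsq
    calc C₃ * (√X + 1) ≤ C₃ * (2 * √X) := mul_le_mul_of_nonneg_left h1 hC₃0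
      _ = C₃ * 40000 * √X / 20000 := by ring
      _ ≤ X / 20000 := by gcongr
  obtain ⟨hpi1, hpi2⟩ := two_pi_bounds
  have hCS : ∀ (M a : Eis) (N : ℕ), M.norm = N → 1 ≤ N →
      |((CS M a X).card : ℝ) - 2 * Real.pi / √3 * X / N| ≤ 10 * (√X + 1) := by
    intro M a N hN hN1
    have hM : M ≠ 0 := by
      rintro rfl
      have h0 : (0 : Eis).norm = 0 := by decide
      rw [h0] at hN
      omega
    have h := CS_card M a hM X
    rw [hN, Int.cast_natCast] at h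
    exact h
  have hT3s : ((∑ p ∈ PB K, (CS (p ^ 3) 0 X).card : ℕ) : ℝ) ≤
      2 * Real.pi / √3 * X * (45 / 1000) + 10 * n * (√X + 1) := by
    push_cast
    have h1 : ∀ p ∈ PB K, ((CS (p ^ 3) 0 X).card : ℝ) ≤
        2 * Real.pi / √3 * X * (1 / (p.norm : ℝ) ^ 3) + 10 * (√X + 1) := by
      intro p hp
      have hp' := (mem_PB K p).1 hp
      have hdom := eis_isDomain
      have h2 := (abs_le.1 (CS_card (p ^ 3) 0 (pow_ne_zero 3 hp'.2.1.ne_zero) X)).2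
      have e : (((p ^ 3).norm : ℤ) : ℝ) = (p.norm : ℝ) ^ 3 := by
        rw [map_pow]
        push_cast
        rfl
      rw [e, div_eq_mul_one_div] at h2
      linarith
    refine (Finset.sum_le_sum h1).trans ?_
    rw [Finset.sum_add_distrib, ← Finset.mul_sum, Finset.sum_const, nsmul_eq_mul, ← hn]
    have h3 := sum3 (PB K) fun p hp => ((mem_PB K p).1 hp).2
    have h4 : 0 ≤ 2 * Real.pi / √3 * X := mul_nonneg (by linarith) (by linarith)
    have h5 := mul_le_mul_of_nonneg_left h3 h4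
    linarith
  have hT3 : (6 : ℝ) * (T3 K X).card ≤ 2 * Real.pi / √3 * X * (45 / 1000) + 10 * n * (√X + 1) := by
    have h1 := T3_card K X
    have h2 : (6 : ℝ) * (T3 K X).card ≤ ((∑ p ∈ PB K, (CS (p ^ 3) 0 X).card : ℕ) : ℝ) := by exact_mod_cast h1
    exact h2.trans hT3s
  have hT2 : ((T2 K X).card : ℝ) ≤ X / 20000 := by
    rw [hK]
    refine (hB2 k X hk1).trans ?_
    rw [div_le_div_iff₀ (by nlinarith [mul_pos hC₂ (by norm_num : (0 : ℝ) < 20000)]) (by norm_num)]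
    calc C₂ * X * 20000 = X * (C₂ * 20000) := by ring
      _ ≤ X * (k : ℝ) ^ 2 := by
        apply mul_le_mul_of_nonneg_left _ (by linarith)
        linarith
  have hCb := hS X
  have hN1 : (9 : Eis).norm = ((81 : ℕ) : ℤ) := by decide
  have hN2 : (16 : Eis).norm = ((256 : ℕ) : ℤ) := by decide
  have hN3 : ((2 : Eis) ^ 6).norm = ((4096 : ℕ) : ℤ) := by decide
  have hN4 : ((la : Eis) ^ 6).norm = ((729 : ℕ) : ℤ) := by decide
  have hN5 : (1 : Eis).norm = ((1 : ℕ) : ℤ) := by decide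
  have hCS' : ∀ (M a : Eis) (N : ℕ), M.norm = N → 1 ≤ N →
      ((CS M a X).card : ℝ) ≤ 2 * Real.pi / √3 * X / N + 10 * (√X + 1) := by
    intro M a N hN hN1
    have := (abs_le.1 (hCS M a N hN hN1)).2
    linarith
  have c1 := hCS' 9 1 81 hN1 (by norm_num)
  have c2 := hCS' 9 (-1) 81 hN1 (by norm_num)
  have c3 := hCS' 16 8 256 hN2 (by norm_num)
  have c4 := hCS' 16 (4 + 8) 256 hN2 (by norm_num)
  have c5 := hCS' 16 (4 * om + 8) 256 hN2 (by norm_num)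
  have c6 := hCS' 16 (4 * om ^ 2 + 8) 256 hN2 (by norm_num)
  have c7 := hCS' (2 ^ 6) 0 4096 hN3 (by norm_num)
  have c8 := hCS' (la ^ 6) 0 729 hN4 (by norm_num)
  have c9 := (abs_le.1 (hCS 1 0 1 hN5 (by norm_num))).1
  have r1 : ((81 : ℕ) : ℝ) = 81 := by norm_num
  have r2 : ((256 : ℕ) : ℝ) = 256 := by norm_num
  have r3 : ((4096 : ℕ) : ℝ) = 4096 := by norm_num
  have r4 : ((729 : ℕ) : ℝ) = 729 := by norm_num
  rw [r1] at c1 c2
  rw [r2] at c3 c4 c5 c6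
  rw [r3] at c7
  rw [r4] at c8
  rw [Nat.cast_one, div_one] at c9
  have s1 : (JZR.count (fun _ => True) X : ℝ) ≤ JZR.count (fun D => JT.Cl2 D) X +
    (CS 9 1 X).card + (CS 9 (-1) X).card + (CS 16 8 X).card + (CS 16 (4 + 8) X).card + (CS 16 (4 * om + 8) X).card +
    (CS 16 (4 * om ^ 2 + 8) X).card + (T3 K X).card + (T2 K X).card + (Cb X).card := by
    exact_mod_cast sieve_bad K X
  have s2 : ((CS 1 0 X).card : ℝ) ≤ JZR.count (fun _ => True) X + 1 + (CS (2 ^ 6) 0 X).card + (CS (la ^ 6) 0 X).card +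
    (T3 K X).card + (T2 K X).card := by
    exact_mod_cast sieve_all K X
  have hs0 : 0 ≤ √(X : ℝ) := Real.sqrt_nonneg _
  have herr' : 100 * (√X + 1) + 10 * n * (√X + 1) + C₄ * (√X + 1) ≤ X / 20000 := by
    rw [hC₃] at herr
    linarith
  have e1 : 0 ≤ 10 * n * (√X + 1) := by positivity
  have e2 : 0 ≤ C₄ * (√X + 1) := by positivity
  have hQ1 : 3.6275 * (X : ℝ) ≤ 2 * Real.pi / √3 * X := mul_le_mul_of_nonneg_right hpi1 (by linarith)
  generalize 2 * Real.pi / √3 * (X : ℝ) = Q at hT3 c1 c2 c3 c4 c5 c6 c7 c8 c9 hQ1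
  have he0 : 1 ≤ √(X : ℝ) + 1 := by linarith
  generalize √(X : ℝ) + 1 = e at hCb herr' e1 e2 hT3 c1 c2 c3 c4 c5 c6 c7 c8 c9 he0
  have hX3 : 0 ≤ (X : ℝ) := by linarith
  have hfin : (95 : ℝ) * JZR.count (fun _ => True) X ≤ 100 * JZR.count (fun D => JT.Cl2 D) X := by
    have hX2 : (1 : ℝ) ≤ X / 20000 := by linarith
    generalize ((CS 9 1 X).card : ℝ) = x1 at s1 c1
    generalize ((CS 9 (-1) X).card : ℝ) = x2 at s1 c2
    generalize ((CS 16 8 X).card : ℝ) = x3 at s1 c3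
    generalize ((CS 16 (4 + 8) X).card : ℝ) = x4 at s1 c4
    generalize ((CS 16 (4 * om + 8) X).card : ℝ) = x5 at s1 c5
    generalize ((CS 16 (4 * om ^ 2 + 8) X).card : ℝ) = x6 at s1 c6
    generalize ((CS (2 ^ 6) 0 X).card : ℝ) = x7 at s2 c7
    generalize ((CS (la ^ 6) 0 X).card : ℝ) = x8 at s2 c8
    generalize ((CS 1 0 X).card : ℝ) = x9 at s2 c9
    generalize ((T3 K X).card : ℝ) = y1 at s1 s2 hT3
    generalize ((T2 K X).card : ℝ) = y2 at s1 s2 hT2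
    generalize ((Cb X).card : ℝ) = y3 at s1 hCb
    generalize (JZR.count (fun _ => True) X : ℝ) = z1 at s1 s2 ⊢
    generalize (JZR.count (fun D => JT.Cl2 D) X : ℝ) = z2 at s1 ⊢
    have t1 : y1 ≤ 75 / 10000 * Q + X / 20000 := by linarith
    have t2 : (1 - 1 / 4096 - 1 / 729 - 75 / 10000) * Q - X / 1000 ≤ z1 := by linarith
    have t3 : z1 ≤ z2 + (2 / 81 + 4 / 256 + 75 / 10000) * Q + X / 1000 := by
      linarith
    linarith
  exact_mod_cast hfin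

theorem count_both : ∃ X₀ : ℕ, ∀ X : ℕ, X₀ ≤ X →
    71 * JZR.count (fun _ => True) X ≤ 100 * JZR.count (fun D => JG.ClG D ∧ JT.Cl2 D) X := by
  obtain ⟨X1, h1⟩ := JGC.count_clG
  obtain ⟨X2, h2⟩ := count_cl2
  refine ⟨X1 + X2, fun X hX => ?_⟩
  have a1 := h1 X (by omega)
  have a2 := h2 X (by omega)
  have a3 : JZR.count (fun D => JG.ClG D) X + JZR.count (fun D => JT.Cl2 D) X ≤
      JZR.count (fun D => JG.ClG D ∧ JT.Cl2 D) X + JZR.count (fun _ => True) X := by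
    have f1 := JZR.finite_le (fun D => JG.ClG D) X
    have f2 := JZR.finite_le (fun D => JT.Cl2 D) X
    have b1 := Set.ncard_union_add_ncard_inter {D : Eis | JZR.SixthPowerFree D ∧ D.norm ≤ X ∧ JG.ClG D}
      {D : Eis | JZR.SixthPowerFree D ∧ D.norm ≤ X ∧ JT.Cl2 D} f1 f2
    have b2 : ({D : Eis | JZR.SixthPowerFree D ∧ D.norm ≤ X ∧ JG.ClG D} ∪
        {D : Eis | JZR.SixthPowerFree D ∧ D.norm ≤ X ∧ JT.Cl2 D}).ncard ≤ JZR.count (fun _ => True) X := by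
      refine Set.ncard_le_ncard ?_ (JZR.finite_le _ X)
      rintro D (hD | hD)
      · exact ⟨hD.1, hD.2.1, trivial⟩
      · exact ⟨hD.1, hD.2.1, trivial⟩
    have b3 : ({D : Eis | JZR.SixthPowerFree D ∧ D.norm ≤ X ∧ JG.ClG D} ∩
        {D : Eis | JZR.SixthPowerFree D ∧ D.norm ≤ X ∧ JT.Cl2 D}).ncard ≤
        JZR.count (fun D => JG.ClG D ∧ JT.Cl2 D) X := by
      refine Set.ncard_le_ncard ?_ (JZR.finite_le _ X)
      rintro D ⟨hD, hD'⟩
      exact ⟨hD.1, hD.2.1, hD.2.2, hD'.2.2⟩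
    show {D : Eis | JZR.SixthPowerFree D ∧ D.norm ≤ X ∧ JG.ClG D}.ncard +
      {D : Eis | JZR.SixthPowerFree D ∧ D.norm ≤ X ∧ JT.Cl2 D}.ncard ≤ _
    omega
  omega

end J2C
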